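import Pool.Agent.Helper13.BK.Opt

set_option autoImplicit false

open Nat.Partrec (Code)

namespace Pool.Agent.Results.MP_29fd35_lc.AlmostCompleteAvoidingCones

/-- The characteristic function of the set `X`, as an oracle. -/
def char (X : ℕ → Bool) : ℕ →. ℕ := fun n => Part.some (X n).toNat

/-- `X` is Turing reducible to `Y`. -/
def Red (X Y : ℕ → Bool) : Prop := TuringReducible (char X) (char Y)

/-- The halting problem: the set of the `n` such that the computation with the code `n` halts on the
input `n`. -/
noncomputable def halting : ℕ → Bool :=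
  fun n => @decide (Code.eval (Denumerable.ofNat Code n) n).Dom (Classical.propDecidable _)

/-- The string of the first `n` bits of `X`. -/
def initial (X : ℕ → Bool) (n : ℕ) : List Bool := (List.range n).map X

/-- `M` is a prefix-free machine relative to `B`: a partial function on the binary strings which is
recursive in `B` and whose domain contains no two different strings one of which is an initial segment
of the other. -/
def Machine (B : ℕ → Bool) (M : List Bool →. List Bool) : Prop :=
  RecursiveIn {char B} M ∧ ∀ p q, (M p).Dom → (M q).Dom → p <+: q → p = q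

/-- The length of a shortest program for `x` on the machine `M` (`⊤` if there is none). -/
noncomputable def K (M : List Bool →. List Bool) (x : List Bool) : ℕ∞ :=
  ⨅ (p : List Bool) (_ : x ∈ M p), (p.length : ℕ∞)

/-- `U` is an optimal prefix-free machine relative to `B`; then `K U` is the complexity `K^B`, which is
determined up to an additive constant. -/
def Optimal (B : ℕ → Bool) (U : List Bool →. List Bool) : Prop :=
  Machine B U ∧ ∀ M, Machine B M → ∃ c : ℕ, ∀ x, K U x ≤ K M x + c

/-- `X` is K-trivial relative to `B`: there are optimal machines relative to `B`, and for every one of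
them, `K^B (X ↾ n) ≤ K^B (n) + c`, whatever computable injective coding `s` of the numbers by strings is
used. -/
def KTrivial (X B : ℕ → Bool) : Prop :=
  (∃ U, Optimal B U) ∧ ∀ U, Optimal B U → ∀ s : ℕ → List Bool, Computable s →
    Function.Injective s → ∃ c : ℕ, ∀ n, K U (initial X n) ≤ K U (s n) + c

/-- `B` is almost complete. -/
def AlmostComplete (B : ℕ → Bool) : Prop := KTrivial halting B

/-- **Almost complete sets strictly below the halting problem which avoid an upper cone.** For every
noncomputable c.e. set `A` there is an almost complete set `B` which is strictly below the halting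
problem and does not compute `A`. -/
theorem result (A : ℕ → Bool) (hA : REPred fun n => A n = true) (hnc : ¬Computable A) :
    ∃ B : ℕ → Bool, AlmostComplete B ∧ (Red B halting ∧ ¬Red halting B) ∧ ¬Red A B := by
  have hA' : ∃ φ : ℕ →. ℕ, Nat.Partrec φ ∧ ∀ n, (φ n).Dom ↔ A n = true := by
    refine ⟨fun n => (Part.assert (A n = true) fun _ => Part.some ()).map fun _ => 0,
      Partrec.nat_iff.1 (Partrec.map hA (Computable.const 0).to₂), fun n => ?_⟩
    simp [Part.assert]
  obtain ⟨B, h1, h2, h3, h4⟩ := Pool.Agent.Helper13.BK.main_machine A hA' hnc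
  have key : ∀ M, Machine B M ↔ Pool.Agent.Helper13.BK.Machine B M := fun M =>
    ⟨fun h => ⟨h.1, h.2⟩, fun h => ⟨h.comp, h.pf⟩⟩
  refine ⟨B, ⟨?_, ?_⟩, ⟨RecursiveIn.iff_nat.2 h1, fun h => h2 (RecursiveIn.iff_nat.1 h)⟩,
    fun h => h3 (RecursiveIn.iff_nat.1 h)⟩
  · obtain ⟨U, hU, hU2⟩ := Pool.Agent.Helper13.BK.exists_optimal B
    exact ⟨U, (key U).2 hU, fun M hM => hU2 M ((key M).1 hM)⟩
  · intro U hU s hs hsi
    obtain ⟨M', hM', c, hc⟩ := h4 s hs hsi U ((key U).1 hU.1)
    obtain ⟨d, hd⟩ := hU.2 M' ((key M').2 hM')
    refine ⟨c + d, fun n => ?_⟩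
    calc K U (initial halting n) ≤ K M' (initial halting n) + d := hd _
      _ ≤ (K U (s n) + c) + d := add_le_add_left (hc n) _
      _ = K U (s n) + ((c + d : ℕ) : ℕ∞) := by push_cast; ring

end Pool.Agent.Results.MP_29fd35_lc.AlmostCompleteAvoidingCones
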